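import Pool.Agent.U744.MA.Final

/-!
# MP_57adf2_an, Q2: the averages `R_N(A)` have a positive limit

Positive answer to Q2. The limit exists because the averages `S_N` converge in `L²` (Q1, the
starting library `Pool.Agent.K7.H83.MA`). Positivity, for `F = 1_A`:

* decompose `F = ξ + e + y`, where `0 ≤ ξ ≤ 1` is invariant under all the `T_k` with `k ≡ 1 mod Q`
  without prime factor in a sparse set `E`, `e` is small and `y` is orthogonal to all the functions
  of this kind (for all `Q` and `E`); then `y` does not contribute to averages along `m + n` with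
  multiplicatively structured weights;
* colour the primes by the generator, by membership in `E` and by the residue modulo `Q`, and let
  `s` be a suitable special integer divisible by `Q`. For `1 ≤ k ≤ J` restrict the averages to
  `m = s^k m'`, with `m'` and `n` of trivial label; then `m + n ≡ 1 mod Q` and, but for few pairs,
  `m + n` has no special prime factor, so `T_{m+n} ξ = ξ`;
* the cube averages of the starting library give the correlations `⟨H_n, T_s^k H_n⟩` of vectors
  `H_n` whose integrals have a positive mean; by Fejér's inequality (van der Corput) one of the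
  `k ≤ J` has a positive mean correlation.
-/

set_option autoImplicit false
set_option linter.unusedSectionVars false

open Finset Filter Topology MeasureTheory
open scoped ENNReal InnerProductSpace

namespace Pool.Agent.Results.MP_57adf2_an.PositiveLimit

open Pool.Agent.K7.H83.MA Pool.Agent.U744.MA

/-- A multiplicative measure preserving action (identities between maps are understood almost
everywhere): `T n`, `n ≥ 1`, are measure preserving maps, invertible modulo null sets, with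
`T 1 = id` and `T (m n) = T m ∘ T n`. -/
structure MultAction {X : Type*} [MeasurableSpace X] (μ : Measure X) (T : ℕ → X → X) : Prop where
  mp : ∀ n, 0 < n → MeasurePreserving (T n) μ μ
  inv : ∀ n, 0 < n → ∃ S : X → X, MeasurePreserving S μ μ ∧ (∀ᵐ x ∂μ, S (T n x) = x) ∧
    (∀ᵐ x ∂μ, T n (S x) = x)
  one : ∀ᵐ x ∂μ, T 1 x = x
  mul : ∀ m n, 0 < m → 0 < n → ∀ᵐ x ∂μ, T (m * n) x = T m (T n x)

/-- The action is finitely generated: up to equality almost everywhere, only finitely many maps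
occur among the `T p`, `p` prime. -/
def FinGen {X : Type*} [MeasurableSpace X] (μ : Measure X) (T : ℕ → X → X) : Prop :=
  ∃ V : Set (X → X), V.Finite ∧ ∀ p : ℕ, p.Prime → ∃ S ∈ V, T p =ᵐ[μ] S

/-- The average `R_N(A)`. -/
noncomputable def RAv {X : Type*} [MeasurableSpace X] (μ : Measure X) (T : ℕ → X → X) (A : Set X)
    (N : ℕ) : ℝ :=
  1 / (N : ℝ) ^ 2 * ∑ m ∈ Icc 1 N, ∑ n ∈ Icc 1 N,
    μ.real (A ∩ T (m * n) ⁻¹' A ∩ T (m + n) ⁻¹' A ∩ T m ⁻¹' A ∩ T n ⁻¹' A)

theorem exists_col {X : Type*} [MeasurableSpace X] {μ : Measure X} {T : ℕ → X → X}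
    (hT : MultAction μ T) (hfg : FinGen μ T) : ∃ (r : ℕ) (c : ℕ → Fin r), Sys c μ T := by
  classical
  obtain ⟨V, hV, hVT⟩ := hfg
  have h1 : ∀ p : ℕ, ∃ S : hV.toFinset, p.Prime → T p =ᵐ[μ] (S : X → X) := by
    intro p
    by_cases hp : p.Prime
    · obtain ⟨S, hS, hTS⟩ := hVT p hp
      exact ⟨⟨S, hV.mem_toFinset.2 hS⟩, fun _ => hTS⟩
    · obtain ⟨S, hS, hTS⟩ := hVT 2 Nat.prime_two
      exact ⟨⟨S, hV.mem_toFinset.2 hS⟩, fun h => absurd h hp⟩
  choose S hS using h1
  refine ⟨hV.toFinset.card, fun p => hV.toFinset.equivFin (S p), hT.mp, hT.inv, hT.one, hT.mul,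
    fun p q hp hq hpq => ?_⟩
  have h2 : S p = S q := hV.toFinset.equivFin.injective hpq
  have h3 := hS p hp
  rw [h2] at h3
  exact h3.trans (hS q hq).symm

variable {X : Type*} [MeasurableSpace X] {μ : Measure X}

theorem ui_ind {B : Set X} (hB : MeasurableSet B) : UI (B.indicator fun _ => (1 : ℝ)) :=
  ⟨measurable_const.indicator hB, fun x => by by_cases hx : x ∈ B <;> simp [hx]⟩

theorem tr_ind [IsProbabilityMeasure μ] {T : ℕ → X → X} {B : Set X} (hB : MeasurableSet B)
    (hm : ∀ n, 0 < n → Measurable (T n)) {m n : ℕ} (hm0 : 0 < m) (hn0 : 0 < n) :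
    tr μ T (B.indicator fun _ => (1 : ℝ)) m n =
      μ.real (B ∩ T (m * n) ⁻¹' B ∩ T (m + n) ⁻¹' B ∩ T m ⁻¹' B ∩ T n ⁻¹' B) := by
  have hM : MeasurableSet (B ∩ T (m * n) ⁻¹' B ∩ T (m + n) ⁻¹' B ∩ T m ⁻¹' B ∩ T n ⁻¹' B) :=
    (((hB.inter (hm _ (Nat.mul_pos hm0 hn0) hB)).inter (hm _ (by omega) hB)).inter
      (hm _ hm0 hB)).inter (hm _ hn0 hB)
  rw [← integral_indicator_one hM]
  unfold tr wr
  refine integral_congr_ae (Eventually.of_forall fun x => ?_)
  simp only [Set.indicator_apply, Set.mem_inter_iff, Set.mem_preimage, Pi.one_apply]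
  by_cases h1 : x ∈ B <;> by_cases h2 : T (m * n) x ∈ B <;> by_cases h3 : T (m + n) x ∈ B <;>
    by_cases h4 : T m x ∈ B <;> by_cases h5 : T n x ∈ B <;> simp [h1, h2, h3, h4, h5]

/-- **Q2, answered in the affirmative.** Let `(X, μ)` be a standard Borel probability space and
`(T n)` a finitely generated multiplicative measure preserving action on it. Then for every
measurable set `A` (possibly only for the completion of `μ`) with `μ A > 0` the averages
`R_N(A) = N⁻² ∑_{m, n ≤ N} μ(A ∩ T_{mn}⁻¹ A ∩ T_{m+n}⁻¹ A ∩ T_m⁻¹ A ∩ T_n⁻¹ A)` converge to a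
positive limit. -/
theorem result {X : Type*} [MeasurableSpace X] [StandardBorelSpace X] (μ : Measure X)
    [IsProbabilityMeasure μ] (T : ℕ → X → X) (hT : MultAction μ T) (hfg : FinGen μ T)
    (A : Set X) (hA : NullMeasurableSet A μ) (hμA : 0 < μ A) :
    ∃ L : ℝ, 0 < L ∧ Tendsto (fun N : ℕ => RAv μ T A N) atTop (𝓝 L) := by
  classical
  obtain ⟨r, c, hs⟩ := exists_col hT hfg
  obtain ⟨B, hB, hAB⟩ : ∃ B, MeasurableSet B ∧ A =ᵐ[μ] B :=
    ⟨toMeasurable μ A, measurableSet_toMeasurable μ A, hA.toMeasurable_ae_eq.symm⟩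
  set f : X → ℝ := B.indicator fun _ => (1 : ℝ) with hfd
  have hf : UI f := ui_ind hB
  have hα : 0 < ∫ x, f x ∂μ := by
    have h1 : ∫ x, f x ∂μ = μ.real B := integral_indicator_one hB
    rw [h1, ← measureReal_congr hAB]
    exact ENNReal.toReal_pos hμA.ne' (measure_ne_top μ A)
  -- the averages
  have hI : ∀ N : ℕ, (Icc 1 N : Finset ℕ) = Ioc 0 N := by
    intro N; ext k; rw [mem_Icc, mem_Ioc]; omega
  have hRR : ∀ N : ℕ, RAv μ T A N = Rr μ T f N := by
    intro N
    unfold RAv Rr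
    rw [hI]
    have hN : 1 / (N : ℝ) ^ 2 = (N : ℝ)⁻¹ * (N : ℝ)⁻¹ := by
      rw [one_div, sq, mul_inv]
    rw [hN]
    congr 1
    refine Finset.sum_congr rfl fun m hm => Finset.sum_congr rfl fun n hn => ?_
    rw [mem_Ioc] at hm hn
    rw [tr_ind hB (fun n hn => (hT.mp n hn).measurable) hm.1 hn.1]
    have hp : ∀ k, 0 < k → (T k ⁻¹' A : Set X) =ᵐ[μ] (T k ⁻¹' B : Set X) := fun k hk =>
      (hT.mp k hk).quasiMeasurePreserving.preimage_ae_eq hAB
    exact measureReal_congr ((((hAB.inter (hp _ (Nat.mul_pos hm.1 hn.1))).inter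
      (hp _ (by omega))).inter (hp _ hm.1)).inter (hp _ hn.1))
  -- convergence
  obtain ⟨V, hV⟩ := SN_conv hs hf.bm hf.bm hf.bm (bb μ f)
  have hlim := (Complex.continuous_re.tendsto _).comp
    (Filter.Tendsto.inner (𝕜 := ℂ) (tendsto_const_nhds (x := bb μ f)) hV)
  have hRS : ∀ N : ℕ, (⟪bb μ f, SN μ T (cx f) (cx f) (cx f) N (bb μ f)⟫_ℂ).re = Rr μ T f N := by
    intro N
    rw [SN_apply]
    have e0 : ((N : ℂ)⁻¹ * (N : ℂ)⁻¹) = (((N : ℝ)⁻¹ * (N : ℝ)⁻¹ : ℝ) : ℂ) := by push_cast; rfl
    rw [e0, inner_smul_right, Complex.re_ofReal_mul, inner_sum, Complex.re_sum]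
    unfold Rr
    congr 1
    refine Finset.sum_congr rfl fun m hm => ?_
    rw [inner_sum, Complex.re_sum]
    refine Finset.sum_congr rfl fun n hn => ?_
    rw [mem_Ioc] at hm hn
    have hw := wr_UI hs hf hm.1 hn.1
    have hmn := hs.mp (m + n) (by omega)
    have h1 : ww T (cx f) (cx f) (cx f) m n = cx (wr T f m n) := by
      funext x
      simp [ww, cx, wr]
    rw [h1, inner_mulB hw hf, koop_bb hmn hf, inner_bb (hw.mul hf) (hf.comp hmn.measurable),
      Complex.ofReal_re]
    unfold tr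
    refine integral_congr_ae (Eventually.of_forall fun x => ?_)
    simp only
    ring
  have hlim2 : Tendsto (fun N => Rr μ T f N) atTop (𝓝 (⟪bb μ f, V⟫_ℂ).re) :=
    hlim.congr fun N => hRS N
  have hL0 : 0 ≤ (⟪bb μ f, V⟫_ℂ).re := by
    refine ge_of_tendsto' hlim2 fun N => ?_
    rw [← hRR]
    unfold RAv
    exact mul_nonneg (by positivity) (Finset.sum_nonneg fun m _ => Finset.sum_nonneg fun n _ =>
      measureReal_nonneg)
  refine ⟨(⟪bb μ f, V⟫_ℂ).re, lt_of_le_of_ne hL0 fun h0 => ?_, hlim2.congr fun N => (hRR N).symm⟩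
  exact main_pos hs hf hα (h0 ▸ hlim2)

end Pool.Agent.Results.MP_57adf2_an.PositiveLimit
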